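import Mathlib
import Pool.Agent.T6.H58.RK.FinV

/-!
# `R_k(e_μ)` is e-positive (MP_8b86ce_co, Q1)

We prove that for all `k ≥ 1`, all `n` and all partitions `μ` of `k n`, the symmetric function
`R_k(e_μ)` has non-negative integer coefficients in the basis of the `e_λ`.

Symmetric functions are formal power series in the variables `x_0, x_1, x_2, …`
(`MvPowerSeries ℕ ℚ`).

Idea of the proof.  In `n` variables, functions on the set of pairs (bijection particles to
positions, integer counter at every position) carry commuting operators `Y_1, …, Y_n` built from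
the R-matrices `R_{ij} = 1 + h_{ij} (s_{ij} - 1)`, where `h_{ij} = 1 / (u_i - u_j)` if the counters
at `i`, `j` are congruent modulo `k` and `h_{ij} = 0` otherwise (`Y_a = R_{a,a+1} ⋯ R_{a,n} t_a
R_{a,1} ⋯ R_{a,a-1}`).  On symmetric functions `e_m(Y)` acts by
`F ↦ ∑_{|P| = m} ∏_{p ∈ P, i ∉ P} (1 - h_{pi}) F(· + 1_P)`, which is positive for `u_i = i`.
On functions supported on counters divisible by `k`, `Y_a ^ k` is the operator `Y_a` for `k = 1`.
Comparing the two sides at the base point gives the positivity.
-/

namespace Pool.Agent.Results.MP_8b86ce_co.DivisionMapPositive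

open Pool.Agent.T6.H58.RK

open scoped Classical in
/-- The elementary symmetric function `e_m` in the variables `x_0, x_1, …`: the sum of all
square-free monomials of degree `m`. -/
noncomputable def elem (m : ℕ) : MvPowerSeries ℕ ℚ :=
  fun d => if d.degree = m ∧ ∀ i, d i ≤ 1 then 1 else 0

/-- `e_μ`, the product of the `e_{μ_j}` over the parts of `μ`. -/
noncomputable def elemP {m : ℕ} (μ : m.Partition) : MvPowerSeries ℕ ℚ :=
  (μ.parts.map elem).prod

open scoped Classical in
/-- The monomial symmetric function: the sum of all monomials whose multiset of non-zero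
exponents is `s`. -/
noncomputable def msym (s : Multiset ℕ) : MvPowerSeries ℕ ℚ :=
  fun d => if d.support.val.map d = s then 1 else 0

/-- The map `R_k`: keep the monomials all of whose exponents are divisible by `k`, and divide all
their exponents by `k` (the coefficient of `x^d` in `R_k f` is the coefficient of `x^{k d}`
in `f`). -/
noncomputable def divMap (k : ℕ) (f : MvPowerSeries ℕ ℚ) : MvPowerSeries ℕ ℚ :=
  fun d => MvPowerSeries.coeff (k • d) f

theorem coeff_elem (m : ℕ) (d : ℕ →₀ ℕ) :
    MvPowerSeries.coeff d (elem m) = (open scoped Classical in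
      if d.degree = m ∧ ∀ i, d i ≤ 1 then 1 else 0) := rfl

theorem coeff_divMap (k : ℕ) (f : MvPowerSeries ℕ ℚ) (d : ℕ →₀ ℕ) :
    MvPowerSeries.coeff d (divMap k f) = MvPowerSeries.coeff (k • d) f := rfl

theorem degree_embDomain {n : ℕ} (e : Fin n ↪ ℕ) (d : Fin n →₀ ℕ) :
    (Finsupp.embDomain e d).degree = d.degree := by
  rw [Finsupp.degree_apply, Finsupp.degree_apply, Finsupp.support_embDomain, Finset.sum_map]
  refine Finset.sum_congr rfl fun i _ => ?_
  rw [Finsupp.embDomain_apply_self]

/-- restriction to `n` of the variables -/
theorem killCompl_elem {n : ℕ} (e : Fin n ↪ ℕ) (m : ℕ) :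
    MvPowerSeries.killCompl e (elem m)
      = ((MvPolynomial.esymm (Fin n) ℚ m : MvPolynomial (Fin n) ℚ) : MvPowerSeries (Fin n) ℚ) := by
  ext d
  rw [MvPowerSeries.coeff_killCompl, MvPolynomial.coeff_coe, coeff_esymm, coeff_elem]
  have h1 : (Finsupp.embDomain e d).degree = d.degree := degree_embDomain e d
  have h2 : (∀ i, Finsupp.embDomain e d i ≤ 1) ↔ ∀ i, d i ≤ 1 := by
    constructor
    · intro h i
      have := h (e i)
      rwa [Finsupp.embDomain_apply_self] at this
    · intro h i
      by_cases hi : i ∈ Set.range e
      · obtain ⟨j, rfl⟩ := hi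
        rw [Finsupp.embDomain_apply_self]
        exact h j
      · rw [Finsupp.embDomain_of_notMem_range _ _ _ hi]
        exact Nat.zero_le _
  simp only [h1, h2]

theorem killCompl_prod {n : ℕ} (e : Fin n ↪ ℕ) (s : Multiset ℕ) :
    MvPowerSeries.killCompl e (s.map elem).prod
      = (((s.map (MvPolynomial.esymm (Fin n) ℚ)).prod : MvPolynomial (Fin n) ℚ) :
          MvPowerSeries (Fin n) ℚ) := by
  induction s using Multiset.induction_on with
  | empty => simp
  | cons a s ih =>
    rw [Multiset.map_cons, Multiset.prod_cons, map_mul, ih, killCompl_elem, Multiset.map_cons,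
      Multiset.prod_cons, MvPolynomial.coe_mul]

/-- coefficients at exponents supported on the image of `e` -/
theorem coeff_embDomain_prod {n : ℕ} (e : Fin n ↪ ℕ) (s : Multiset ℕ) (d : Fin n →₀ ℕ) :
    MvPowerSeries.coeff (Finsupp.embDomain e d) (s.map elem).prod
      = MvPolynomial.coeff d (s.map (MvPolynomial.esymm (Fin n) ℚ)).prod := by
  rw [← MvPowerSeries.coeff_killCompl, killCompl_prod, MvPolynomial.coeff_coe]

/-- homogeneity -/
theorem coeff_prod_elem (s : Multiset ℕ) : ∀ (d : ℕ →₀ ℕ),
    MvPowerSeries.coeff d (s.map elem).prod ≠ 0 → d.degree = s.sum := by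
  classical
  induction s using Multiset.induction_on with
  | empty =>
    intro d h
    rw [Multiset.map_zero, Multiset.prod_zero, MvPowerSeries.coeff_one] at h
    have : d = 0 := by
      by_contra hne
      rw [if_neg hne] at h
      exact h rfl
    rw [this]; simp
  | cons a s ih =>
    intro d h
    rw [Multiset.map_cons, Multiset.prod_cons, MvPowerSeries.coeff_mul] at h
    obtain ⟨p, hp, hne⟩ := Finset.exists_ne_zero_of_sum_ne_zero h
    have h1 : MvPowerSeries.coeff p.1 (elem a) ≠ 0 := left_ne_zero_of_mul hne
    have h2 := right_ne_zero_of_mul hne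
    have h3 := ih p.2 h2
    have h4 : p.1.degree = a := by
      rw [coeff_elem] at h1
      by_contra hcon
      rw [if_neg (fun e => hcon e.1)] at h1
      exact h1 rfl
    rw [Finset.HasAntidiagonal.mem_antidiagonal] at hp
    rw [← hp, map_add, h3, h4, Multiset.sum_cons]

/-- every exponent of degree `n` is supported on `n` variables -/
theorem exists_emb {n : ℕ} (d : ℕ →₀ ℕ) (hd : d.degree = n) :
    ∃ (e : Fin n ↪ ℕ) (d' : Fin n →₀ ℕ), d = Finsupp.embDomain e d' := by
  have hcard : d.support.card ≤ n := by
    rw [← hd, Finsupp.degree_apply, Finset.card_eq_sum_ones]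
    refine Finset.sum_le_sum fun i hi => ?_
    rw [Finsupp.mem_support_iff] at hi
    omega
  obtain ⟨T, hT, hTc⟩ := Infinite.exists_superset_card_eq d.support n hcard
  let e : Fin n ↪ ℕ := (T.orderEmbOfFin hTc).toEmbedding
  refine ⟨e, d.comapDomain e e.injective.injOn, ?_⟩
  rw [Finsupp.embDomain_comapDomain]
  intro i hi
  have : i ∈ T := hT hi
  have hr : Set.range (T.orderEmbOfFin hTc) = T := Finset.range_orderEmbOfFin T hTc
  rw [← Finset.mem_coe, ← hr] at this
  exact this

theorem divMap_msym {k : ℕ} (hk : 1 ≤ k) (s : Multiset ℕ) :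
    divMap k (msym s) = (open scoped Classical in
      if ∀ a ∈ s, k ∣ a then msym (s.map (fun a => a / k)) else 0) := by
  ext d
  rw [coeff_divMap]
  have h0 : (k • d).support.val.map (k • d) = (d.support.val.map d).map (fun a => k * a) := by
    have : (k • d).support = d.support := by
      ext i
      rw [Finsupp.mem_support_iff, Finsupp.mem_support_iff, Finsupp.smul_apply, smul_eq_mul]
      constructor
      · intro h h'
        exact h (by rw [h', mul_zero])
      · intro h
        exact Nat.mul_ne_zero (by omega) h
    rw [this, Multiset.map_map]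
    apply Multiset.map_congr rfl
    intro i _
    simp
  have h1 : MvPowerSeries.coeff (k • d) (msym s)
      = (open scoped Classical in
        if (d.support.val.map d).map (fun a => k * a) = s then 1 else 0) := by
    rw [← h0]; rfl
  rw [h1]
  by_cases h : ∀ a ∈ s, k ∣ a
  · rw [if_pos h]
    have h2 : MvPowerSeries.coeff d (msym (s.map (fun a => a / k)))
        = (open scoped Classical in
          if d.support.val.map d = s.map (fun a => a / k) then 1 else 0) := rfl
    rw [h2]
    have h3 : (d.support.val.map d).map (fun a => k * a) = s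
        ↔ d.support.val.map d = s.map (fun a => a / k) := by
      constructor
      · intro h'
        rw [← h', Multiset.map_map]
        conv_lhs => rw [← Multiset.map_id (Multiset.map d d.support.val)]
        apply Multiset.map_congr rfl
        intro a _
        simp only [Function.comp, id_eq]
        exact (Nat.mul_div_cancel_left a (by omega)).symm
      · intro h'
        rw [h', Multiset.map_map]
        conv_rhs => rw [← Multiset.map_id s]
        apply Multiset.map_congr rfl
        intro a ha
        exact Nat.mul_div_cancel' (h a ha)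
    simp only [h3]
  · rw [if_neg h, if_neg, map_zero]
    intro h'
    apply h
    intro a ha
    rw [← h', Multiset.mem_map] at ha
    obtain ⟨b, _, rfl⟩ := ha
    exact dvd_mul_right k b

/-- linear independence of the `e_λ`, `λ ⊢ n` -/
theorem elemP_indep {n : ℕ} (c : n.Partition → ℚ)
    (h : ∑ lam : n.Partition, c lam • elemP lam = 0) : ∀ lam, c lam = 0 := by
  classical
  -- restrict to `n` variables
  have h1 : ∑ lam : n.Partition, c lam •
      (lam.parts.map (MvPolynomial.esymm (Fin n) ℚ)).prod = 0 := by
    ext d
    have := congrArg (fun f => MvPowerSeries.coeff (Finsupp.embDomain Fin.valEmbedding d) f) h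
    simp only [map_sum, map_smul, elemP, coeff_embDomain_prod, map_zero, smul_eq_mul] at this
    simpa [MvPolynomial.coeff_sum, MvPolynomial.coeff_smul] using this
  have hparts : ∀ lam : n.Partition, mOf (dOf n lam.parts) = lam.parts := by
    intro lam
    apply mOf_dOf
    intro b hb
    refine ⟨lam.parts_pos hb, ?_⟩
    have := Multiset.le_sum_of_mem hb
    rwa [lam.parts_sum] at this
  have hinj : Function.Injective (fun lam : n.Partition => dOf n lam.parts) := by
    intro lam lam' h
    have : mOf (dOf n lam.parts) = mOf (dOf n lam'.parts) := by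
      simp only at h
      rw [h]
    rw [hparts, hparts] at this
    exact Nat.Partition.ext this
  set P : MvPolynomial (Fin n) ℚ :=
    ∑ lam : n.Partition, MvPolynomial.monomial (dOf n lam.parts) (c lam) with hP
  have h2 : MvPolynomial.aeval (fun i : Fin n => MvPolynomial.esymm (Fin n) ℚ (i.val + 1)) P
      = 0 := by
    rw [hP, map_sum, ← h1]
    refine Finset.sum_congr rfl fun lam _ => ?_
    have : MvPolynomial.monomial (dOf n lam.parts) (c lam)
        = (c lam) • MvPolynomial.monomial (dOf n lam.parts) (1 : ℚ) := by
      rw [MvPolynomial.smul_monomial, smul_eq_mul, mul_one]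
    rw [this, map_smul, aeval_monomial_esymm, hparts]
  have h3 : P = 0 := by
    apply MvPolynomial.esymmAlgHom_fin_injective ℚ (le_refl n)
    apply Subtype.ext
    rw [MvPolynomial.esymmAlgHom_apply, h2, map_zero]
    rfl
  intro lam
  have h4 := congrArg (MvPolynomial.coeff (dOf n lam.parts)) h3
  rw [hP, MvPolynomial.coeff_sum, MvPolynomial.coeff_zero] at h4
  simp only [MvPolynomial.coeff_monomial] at h4
  rw [Finset.sum_eq_single lam] at h4
  · rwa [if_pos rfl] at h4
  · intro lam' _ hne
    rw [if_neg (fun e => hne (hinj e))]
  · intro hn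
    exact absurd (Finset.mem_univ lam) hn

/-- **e-positivity of the division map** (MP_8b86ce_co, Q1).  For `k ≥ 1`: the map `divMap k`
sends the monomial symmetric function `m_λ` to `m_{λ/k}` if all parts are divisible by `k` and to
`0` otherwise; and for every partition `μ` of `k n` the series `R_k(e_μ)` is a combination of the
`e_λ`, `λ ⊢ n`, with natural number coefficients `c λ`, and `c` is the only expansion of
`R_k(e_μ)` in the `e_λ` with rational coefficients. -/
theorem result (k n : ℕ) (hk : 1 ≤ k) :
    (∀ s : Multiset ℕ, divMap k (msym s) = (open scoped Classical in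
      if ∀ a ∈ s, k ∣ a then msym (s.map (fun a => a / k)) else 0)) ∧
    ∀ μ : (k * n).Partition, ∃ c : n.Partition → ℕ,
      divMap k (elemP μ) = ∑ lam : n.Partition, (c lam : ℚ) • elemP lam ∧
      ∀ c' : n.Partition → ℚ, divMap k (elemP μ) = ∑ lam : n.Partition, c' lam • elemP lam →
        ∀ lam, c' lam = c lam := by
  refine ⟨divMap_msym hk, fun μ => ?_⟩
  obtain ⟨c, hc⟩ := fin_main n k hk μ.parts
  have hmain : divMap k (elemP μ)
      = ∑ lam : n.Partition, (c (dOf n lam.parts) : ℚ) • elemP lam := by
    ext d
    rw [coeff_divMap, map_sum]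
    simp only [map_smul, smul_eq_mul]
    by_cases hd : d.degree = n
    · obtain ⟨e, d', rfl⟩ := exists_emb d hd
      have hd' : d'.degree = n := (degree_embDomain e d').symm.trans hd
      have hk' : k • Finsupp.embDomain e d' = Finsupp.embDomain e (k • d') := by
        rw [Finsupp.embDomain_eq_mapDomain, Finsupp.embDomain_eq_mapDomain,
          Finsupp.mapDomain_smul]
      rw [hk']
      unfold elemP
      simp only [coeff_embDomain_prod]
      exact hc d' hd'
    · have h1 : MvPowerSeries.coeff (k • d) (elemP μ) = 0 := by
        by_contra hne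
        have := coeff_prod_elem μ.parts (k • d) hne
        rw [μ.parts_sum, map_nsmul, smul_eq_mul] at this
        exact hd (Nat.eq_of_mul_eq_mul_left (by omega) this)
      rw [h1]
      symm
      refine Finset.sum_eq_zero fun lam _ => ?_
      have : MvPowerSeries.coeff d (elemP lam) = 0 := by
        by_contra hne
        have := coeff_prod_elem lam.parts d hne
        rw [lam.parts_sum] at this
        exact hd this
      rw [this, mul_zero]
  refine ⟨fun lam => c (dOf n lam.parts), hmain, fun c' hc' lam => ?_⟩
  have hz : ∑ lam : n.Partition, (c' lam - (c (dOf n lam.parts) : ℚ)) • elemP lam = 0 := by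
    simp only [sub_smul, Finset.sum_sub_distrib]
    rw [← hc', ← hmain, sub_self]
  have := elemP_indep _ hz lam
  exact sub_eq_zero.1 this

end Pool.Agent.Results.MP_8b86ce_co.DivisionMapPositive
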